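import Mathlib
import Pool.Agent.Helper87.FK.Iso

/-!
# OB, block S1: an automorphism which moves all given numbers of degree divisible by `l`
-/

set_option autoImplicit false

namespace Pool.Agent.Helper43.OB

open IntermediateField

/-- a finite `l`-group is not the union of at most `l` proper subgroups -/
theorem exists_not_mem {P : Type*} [Group P] [Finite P] {l : ℕ} (hl : l.Prime) (hP : IsPGroup l P) {ι : Type*}
    (B : Finset ι) (hB : B.card ≤ l) (Q : ι → Subgroup P) (hQ : ∀ b ∈ B, Q b ≠ ⊤) : ∃ g : P, ∀ b ∈ B, g ∉ Q b := by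
  classical
  by_contra hcon
  push Not at hcon
  have := Fintype.ofFinite P
  have hfact : Fact l.Prime := ⟨hl⟩
  have hcard : ∀ b ∈ B, l * Fintype.card (Q b) ≤ Fintype.card P := by
    intro b hb
    have h1 := (Q b).card_mul_index
    obtain ⟨n, hn⟩ := IsPGroup.iff_card.1 hP
    have h2 : (Q b).index ∣ l ^ n := hn ▸ (Q b).index_dvd_card
    obtain ⟨j, -, hj⟩ := (Nat.dvd_prime_pow hl).1 h2
    have hj0 : j ≠ 0 := by
      rintro rfl
      rw [pow_zero] at hj
      exact hQ b hb (Subgroup.index_eq_one.1 hj)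
    have h3 : l ≤ (Q b).index := by
      rw [hj]
      calc l = l ^ 1 := (pow_one l).symm
        _ ≤ l ^ j := Nat.pow_le_pow_right hl.pos (Nat.pos_of_ne_zero hj0)
    rw [Nat.card_eq_fintype_card, Nat.card_eq_fintype_card] at h1
    calc l * Fintype.card (Q b) ≤ (Q b).index * Fintype.card (Q b) := Nat.mul_le_mul_right _ h3
      _ = Fintype.card P := by rw [mul_comm, h1]
  obtain ⟨b₀, hb₀, -⟩ := hcon 1
  have hPl : l ≤ Fintype.card P := by
    have h1 := hcard b₀ hb₀
    have h2 : 1 ≤ Fintype.card (Q b₀) := Fintype.card_pos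
    nlinarith
  have hsub : (Finset.univ : Finset P).erase 1 ⊆ B.biUnion fun b => ((Finset.univ : Finset P).filter (· ∈ Q b)).erase 1 := by
    intro g hg
    rw [Finset.mem_erase] at hg
    obtain ⟨b, hb, hgb⟩ := hcon g
    rw [Finset.mem_biUnion]
    exact ⟨b, hb, by simp [hg.1, hgb]⟩
  have h1 := (Finset.card_le_card hsub).trans Finset.card_biUnion_le
  rw [Finset.card_erase_of_mem (Finset.mem_univ _), Finset.card_univ] at h1
  have h2 : ∀ b ∈ B, l * (((Finset.univ : Finset P).filter (· ∈ Q b)).erase 1).card ≤ Fintype.card P - l := by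
    intro b hb
    rw [Finset.card_erase_of_mem (by simp [(Q b).one_mem])]
    have h3 : ((Finset.univ : Finset P).filter (· ∈ Q b)).card = Fintype.card (Q b) :=
      (Fintype.card_subtype _).symm
    rw [h3, Nat.mul_sub, mul_one]
    exact Nat.sub_le_sub_right (hcard b hb) l
  have h4 : l * (Fintype.card P - 1) ≤ l * (Fintype.card P - l) := by
    calc l * (Fintype.card P - 1) ≤ l * ∑ b ∈ B, (((Finset.univ : Finset P).filter (· ∈ Q b)).erase 1).card :=
          Nat.mul_le_mul_left _ h1
      _ = ∑ b ∈ B, l * (((Finset.univ : Finset P).filter (· ∈ Q b)).erase 1).card := Finset.mul_sum _ _ _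
      _ ≤ ∑ _b ∈ B, (Fintype.card P - l) := Finset.sum_le_sum h2
      _ = B.card * (Fintype.card P - l) := by rw [Finset.sum_const, smul_eq_mul]
      _ ≤ l * (Fintype.card P - l) := Nat.mul_le_mul_right _ hB
  have h5 := Nat.le_of_mul_le_mul_left h4 hl.pos
  have h6 := hl.two_le
  omega

/-- **S1**: an automorphism which moves all given numbers of degree divisible by `l` (a Sylow subgroup of the Galois group is
not the union of `k ≤ l` proper subgroups) -/
theorem sylow (K : Subfield ℂ) [NumberField K] (l : ℕ) (hl : l.Prime) {k : ℕ} (hk : k ≤ l) (x : Fin k → ℂ)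
    (hx : ∀ b, IsAlgebraic ℚ (x b) → l ∣ (minpoly K (x b)).natDegree) :
    ∃ σ : ℂ ≃+* ℂ, (∀ z ∈ K, σ z = z) ∧ ∀ b, IsAlgebraic ℚ (x b) →
      l ∣ Function.minimalPeriod σ (x b) := by
  classical
  have hfact : Fact l.Prime := ⟨hl⟩
  set B : Finset (Fin k) := Finset.univ.filter fun b => IsAlgebraic ℚ (x b) with hBdef
  have hB : ∀ b, b ∈ B ↔ IsAlgebraic ℚ (x b) := fun b => by simp [hBdef]
  have hint : ∀ b ∈ B, IsIntegral K (x b) := fun b hb => by
    have h1 := ((hB b).1 hb).isIntegral
    exact h1.tower_top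
  set p : Polynomial K := ∏ b ∈ B, minpoly K (x b) with hp
  have hp0 : p ≠ 0 := Finset.prod_ne_zero_iff.2 fun b hb => minpoly.ne_zero (hint b hb)
  set N : IntermediateField K ℂ := adjoin K (p.rootSet ℂ) with hN
  have hsplit : Polynomial.IsSplittingField K N p :=
    IntermediateField.adjoin_rootSet_isSplittingField (IsAlgClosed.splits _)
  have hfin : FiniteDimensional K N := Polynomial.IsSplittingField.finiteDimensional N p
  have hnorm : Normal K N := Normal.of_isSplittingField p
  have hgal : IsGalois K N := ⟨⟩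
  have hxN : ∀ b ∈ B, x b ∈ N := fun b hb => by
    refine subset_adjoin _ _ ?_
    rw [Polynomial.mem_rootSet]
    refine ⟨hp0, ?_⟩
    rw [hp, map_prod]
    exact Finset.prod_eq_zero hb (minpoly.aeval K (x b))
  obtain ⟨P⟩ : Nonempty (Sylow l (N ≃ₐ[K] N)) := inferInstance
  -- the proper subgroups
  let y : Fin k → N := fun b => if h : x b ∈ N then ⟨x b, h⟩ else 0
  have hy : ∀ b ∈ B, ((y b : N) : ℂ) = x b := fun b hb => by
    simp only [y]
    rw [dif_pos (hxN b hb)]
  have hQ : ∀ b ∈ B, (fixingSubgroup K⟮y b⟯).subgroupOf (P : Subgroup (N ≃ₐ[K] N)) ≠ ⊤ := by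
    intro b hb htop
    have h1 : (P : Subgroup (N ≃ₐ[K] N)) ≤ fixingSubgroup K⟮y b⟯ := Subgroup.subgroupOf_eq_top.1 htop
    have h2 : (fixingSubgroup K⟮y b⟯).index ∣ (P : Subgroup (N ≃ₐ[K] N)).index := Subgroup.index_dvd_of_le h1
    have h3 : l ∣ (fixingSubgroup K⟮y b⟯).index := by
      rw [← IntermediateField.finrank_eq_fixingSubgroup_index,
        IntermediateField.adjoin.finrank (IsIntegral.of_finite K (y b))]
      have h4 : minpoly K (y b) = minpoly K (x b) := by
        rw [← hy b hb]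
        exact (minpoly.algebraMap_eq (algebraMap N ℂ).injective (y b)).symm
      rw [h4]
      exact hx b ((hB b).1 hb)
    exact P.not_dvd_index (h3.trans h2)
  obtain ⟨g, hg⟩ := exists_not_mem hl P.isPGroup' B
    ((Finset.card_le_univ B).trans (by rwa [Fintype.card_fin])) _ hQ
  have hcK : Countable K := (Module.finBasis ℚ K).equivFun.toEquiv.injective.countable
  have hcount : Countable N := (Module.finBasis K N).equivFun.toEquiv.injective.countable
  obtain ⟨σ, hσ⟩ := Pool.Agent.Helper87.FK.exists_equiv_ext (K := N) (C := ℂ) (E := ℂ)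
    (by rw [Cardinal.mk_complex]; exact Cardinal.aleph0_lt_continuum) rfl (algebraMap N ℂ)
    ((algebraMap N ℂ).comp ((g : N ≃ₐ[K] N) : N →+* N))
  have hσN : ∀ z : N, σ (z : ℂ) = (((g : N ≃ₐ[K] N) z : N) : ℂ) := fun z => hσ z
  have hiter : ∀ (n : ℕ) (z : N), σ^[n] (z : ℂ) = ((((g : N ≃ₐ[K] N) ^ n) z : N) : ℂ) := by
    intro n
    induction n with
    | zero => intro z; rfl
    | succ n ih =>
      intro z
      rw [Function.iterate_succ_apply, hσN, ih]
      congr 1
  refine ⟨σ, fun z hz => ?_, fun b hb => ?_⟩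
  · have h1 := hσN (algebraMap K N ⟨z, hz⟩)
    rw [AlgEquiv.commutes] at h1
    exact h1
  · have hbB := (hB b).2 hb
    obtain ⟨n, hn⟩ := IsPGroup.iff_card.1 P.isPGroup'
    have hgn : (g : N ≃ₐ[K] N) ^ l ^ n = 1 := by
      have h1 : g ^ l ^ n = 1 := by
        rw [← hn]
        exact pow_card_eq_one'
      have h2 := congrArg (fun z : (P : Subgroup (N ≃ₐ[K] N)) => (z : N ≃ₐ[K] N)) h1
      simpa using h2
    have hper : Function.IsPeriodicPt σ (l ^ n) (x b) := by
      rw [Function.IsPeriodicPt, Function.IsFixedPt, ← hy b hbB, hiter, hgn]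
      rfl
    obtain ⟨j, -, hj⟩ := (Nat.dvd_prime_pow hl).1 hper.minimalPeriod_dvd
    rw [hj]
    refine dvd_pow_self l ?_
    rintro rfl
    rw [pow_zero, Function.minimalPeriod_eq_one_iff_isFixedPt] at hj
    refine hg b hbB ?_
    rw [Subgroup.mem_subgroupOf, IntermediateField.mem_fixingSubgroup_iff]
    have h2 : (g : N ≃ₐ[K] N) (y b) = y b := by
      apply Subtype.ext
      rw [← hσN, hy b hbB]
      exact hj
    intro z hz
    have h3 : K⟮y b⟯ ≤ IntermediateField.fixedField (Subgroup.zpowers (g : N ≃ₐ[K] N)) := by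
      rw [IntermediateField.adjoin_simple_le_iff, IntermediateField.mem_fixedField_iff]
      rintro f hf
      obtain ⟨m, rfl⟩ := Subgroup.mem_zpowers_iff.1 hf
      have h4 : (g : N ≃ₐ[K] N) ∈ MulAction.stabilizer (N ≃ₐ[K] N) (y b) := h2
      exact Subgroup.zpow_mem _ h4 m
    exact (IntermediateField.mem_fixedField_iff _ _).1 (h3 hz) _ (Subgroup.mem_zpowers _)

end Pool.Agent.Helper43.OB
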